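import Pool.Agent.K1H49.PL.Stm

/-!
# Strongly indiscernible trees are rich
-/

namespace Pool.Agent.K1H21.PL

open Pool.Agent.K1H49.PL

universe u

variable {M : Type u}

lemma D_all (Y : Sys M) {α T : Type} [Finite T] (S : T → Set (α → M)) (h : ∀ t, Y.D (S t)) :
    Y.D {v | ∀ t, v ∈ S t} := by
  classical
  have := Fintype.ofFinite T
  have key : ∀ s : Finset T, Y.D {v | ∀ t ∈ s, v ∈ S t} := by
    intro s
    induction s using Finset.induction_on with
    | empty => simpa using Y.univ
    | insert a s ha ih =>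
      have := Y.inter (h a) ih
      convert this using 1
      ext v
      simp
  simpa using key Finset.univ

/-- the tuple `w` fits the values `b` with the labels `lab` -/
def Fit {Y : Sys M} {Λ A ι : Type} (R : RS Y Λ A ι) {T : Type} (lab : T → Λ) (w : A → M)
    (b : T × ι → M) : Prop :=
  R.r0 w ∧ ∀ t, R.r (lab t) w (fun i => b (t, i))

lemma fit_D {Y : Sys M} {Λ A ι : Type} (R : RS Y Λ A ι) {T : Type} [Finite T] (lab : T → Λ)
    {α : Type} (f : A → α) (g : T × ι → α) : Y.D {v : α → M | Fit R lab (v ∘ f) (v ∘ g)} := by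
  have h1 := Y.pull f R.d0
  have h2 := D_all Y (fun t => {v : α → M | R.r (lab t) (v ∘ f) (fun i => v (g (t, i)))})
    (fun t => Y.pull (Sum.elim f (fun i => g (t, i))) (R.d (lab t)))
  exact Y.inter h1 h2

lemma ind' {Y : Sys M} {ι : Type} {c : Nd → ι → M} (hI : Ind Y c) {α : Type} [Finite α]
    (g : α → Nd × ι) {S : Set (α → M)} (hS : Y.D S) {e e' : Nd → Nd} (he : Emb e)
    (he' : Emb e') (h : (fun x => c (e (g x).1) (g x).2) ∈ S) :
    (fun x => c (e' (g x).1) (g x).2) ∈ S := by
  obtain ⟨m, hm⟩ := (Set.finite_range (fun x => (g x).1.length)).bddAbove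
  have hm' : ∀ x, (g x).1.length ≤ m := fun x => hm ⟨x, rfl⟩
  exact hI m _ (Y.pull (fun x => ((⟨(g x).1, hm' x⟩ : LN m), (g x).2)) hS) e e' he he' h

lemma good_iff {Y : Sys M} {Λ A ι : Type} (R : RS Y Λ A ι) (c : Nd → ι → M) (F : Sh Λ)
    (e : Nd → Nd) : Good R c F e ↔
      ∃ w, Fit R (fun k : Fin (F.pos []).length => ((F.pos []).get k).2) w
        (fun x => c (e ((F.pos []).get x.1).1) x.2) := by
  unfold Good Fit
  constructor
  · rintro ⟨w, h0, h⟩
    exact ⟨w, h0, fun t => h _ (List.get_mem _ _)⟩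
  · rintro ⟨w, h0, h⟩
    refine ⟨w, h0, fun p hp => ?_⟩
    obtain ⟨k, rfl⟩ := List.get_of_mem hp
    exact h k

lemma good_ind {Y : Sys M} {Λ A ι : Type} [Finite A] [Finite ι] (R : RS Y Λ A ι)
    {c : Nd → ι → M} (hI : Ind Y c) (F : Sh Λ) {e e' : Nd → Nd} (he : Emb e) (he' : Emb e')
    (h : Good R c F e) : Good R c F e' := by
  rw [good_iff] at h ⊢
  have hD : Y.D {v : Fin (F.pos []).length × ι → M |
      ∃ w : A → M, Fit R (fun k : Fin (F.pos []).length => ((F.pos []).get k).2) w v} :=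
    Y.proj (fit_D R (fun k : Fin (F.pos []).length => ((F.pos []).get k).2)
      (Sum.inr : A → (Fin (F.pos []).length × ι) ⊕ A) Sum.inl)
  exact ind' hI (fun x : Fin (F.pos []).length × ι => (((F.pos []).get x.1).1, x.2)) hD he he' h

lemma emb_id : Emb id := fun _ _ => List.prefix_rfl

lemma emb_mono {e : Nd → Nd} (he : Emb e) {x y : Nd} (h : x <+: y) : e x <+: e y := by
  obtain ⟨t, rfl⟩ := h
  induction t using List.reverseRecOn with
  | nil => simp
  | append_singleton t d ih =>
    rw [← List.append_assoc]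
    exact ih.trans ((List.prefix_append _ [d]).trans (he (x ++ t) d))

lemma emb_comp {e e' : Nd → Nd} (he : Emb e) (he' : Emb e') : Emb (e ∘ e') := by
  intro π d
  exact (he (e' π) d).trans (emb_mono he (he' π d))

open Classical in
/-- move the cone at `g` to the cone at `X` -/
noncomputable def gr (g X : Nd) (π : Nd) : Nd :=
  if g <+: π then X ++ π.drop g.length else π

lemma gr_app (g X τ : Nd) : gr g X (g ++ τ) = X ++ τ := by
  simp [gr]

lemma gr_not {g X π : Nd} (h : ¬ g <+: π) : gr g X π = π := by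
  simp [gr, h]

lemma gr_emb {g X : Nd} (h : g <+: X) : Emb (gr g X) := by
  intro π d
  by_cases h1 : g <+: π
  · obtain ⟨τ, rfl⟩ := h1
    have h2 : g ++ τ ++ [d] = g ++ (τ ++ [d]) := List.append_assoc _ _ _
    rw [h2, gr_app, gr_app, List.append_assoc]
  · rw [gr_not h1]
    by_cases h2 : g <+: π ++ [d]
    · have h3 : g = π ++ [d] := by
        obtain ⟨τ, hτ⟩ := h2
        rcases List.eq_nil_or_concat τ with rfl | ⟨τ', x, rfl⟩
        · simpa using hτ
        · exfalso
          apply h1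
          rw [List.concat_eq_append, ← List.append_assoc] at hτ
          have := List.append_inj_left' hτ rfl
          exact ⟨τ', this⟩
      have h4 : gr g X (π ++ [d]) = X := by
        have := gr_app g X []
        rw [List.append_nil, List.append_nil] at this
        rw [← h3, this]
      rw [h4, ← h3]
      exact h
    · rw [gr_not h2]

lemma pos_prefix {Λ : Type} (F : Sh Λ) : ∀ (π : Nd), ∀ p ∈ F.pos π, π <+: p.1 := by
  induction F with
  | nil => intro π p hp; simp [Sh.pos] at hp
  | node ls l r ihl ihr =>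
    intro π p hp
    simp only [Sh.pos, List.mem_append, List.mem_map] at hp
    rcases hp with ⟨a, _, rfl⟩ | hp | hp
    · exact List.prefix_rfl
    · exact (List.prefix_append _ _).trans (ihl _ p hp)
    · exact (List.prefix_append _ _).trans (ihr _ p hp)

lemma not_both {π τ τ' : Nd} {x y : Bool} (hxy : x ≠ y) {q : Nd} (h1 : (π ++ x :: τ) <+: q)
    (h2 : (π ++ y :: τ') <+: q) : False := by
  obtain ⟨s, rfl⟩ := h1
  obtain ⟨t, ht⟩ := h2
  rw [List.append_assoc, List.append_assoc] at ht
  have := List.append_cancel_left ht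
  simp only [List.cons_append, List.cons.injEq] at this
  exact hxy this.1.symm

lemma hole_free {Λ : Type} (C : Ctx Λ) : ∀ (π : Nd), ∀ p ∈ (C.plug .nil).pos π,
    ¬ (π ++ C.hp) <+: p.1 := by
  induction C with
  | hole => intro π p hp; simp [Ctx.plug, Sh.pos] at hp
  | L ls C r ih =>
    intro π p hp
    simp only [Ctx.plug, Sh.pos, List.mem_append, List.mem_map] at hp
    rcases hp with ⟨a, _, rfl⟩ | hp | hp
    · intro h
      have := h.length_le
      simp [Ctx.hp] at this
    · have := ih _ p hp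
      simpa [Ctx.hp] using this
    · intro h
      exact not_both (τ' := []) (by decide) h (pos_prefix _ _ p hp)
  | R ls l C ih =>
    intro π p hp
    simp only [Ctx.plug, Sh.pos, List.mem_append, List.mem_map] at hp
    rcases hp with ⟨a, _, rfl⟩ | hp | hp
    · intro h
      have := h.length_le
      simp [Ctx.hp] at this
    · intro h
      exact not_both (τ' := []) (by decide) h (pos_prefix _ _ p hp)
    · have := ih _ p hp
      simpa [Ctx.hp] using this

/-- the flattening of `jt` -/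
def fl (h ν : Nd) : Nd := (ν.map fun i => h ++ [i]).flatten

lemma jt_eq (h0 h ν : Nd) : jt h0 h ν = h0 ++ fl h ν := rfl

lemma fl_app (h ρ μ : Nd) (x : Bool) : fl h (ρ ++ x :: μ) = fl h ρ ++ (h ++ [x] ++ fl h μ) := by
  simp [fl]

lemma exEmb (h0 h ρ μ ν : Nd) : ∃ e, Emb e ∧ (∀ π, ¬ h0 <+: π → e π = π) ∧
    (∀ π, e (jt h0 h [false] ++ π) = jt h0 h (ρ ++ false :: μ) ++ π) ∧
    (∀ π, e (jt h0 h [true] ++ π) = jt h0 h (ρ ++ true :: ν) ++ π) := by
  set gf : Nd := h0 ++ (h ++ [false]) with hgf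
  set gt : Nd := h0 ++ (h ++ [true]) with hgt
  have e1 : Emb (gr gf (gf ++ fl h μ)) := gr_emb (List.prefix_append _ _)
  have e2 : Emb (gr gt (gt ++ fl h ν)) := gr_emb (List.prefix_append _ _)
  have e3 : Emb (gr h0 (h0 ++ fl h ρ)) := gr_emb (List.prefix_append _ _)
  have hf : ∀ τ, ¬ gt <+: gf ++ τ := by
    intro τ hh
    refine not_both (π := h0 ++ h) (x := true) (y := false) (τ := []) (τ' := []) (by decide)
      (q := gf ++ τ) ?_ ?_
    · simpa [hgt] using hh
    · simp [hgf]
  have ht : ∀ τ, ¬ gf <+: gt ++ τ := by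
    intro τ hh
    refine not_both (π := h0 ++ h) (x := false) (y := true) (τ := []) (τ' := []) (by decide)
      (q := gt ++ τ) ?_ ?_
    · simpa [hgf] using hh
    · simp [hgt]
  refine ⟨gr h0 (h0 ++ fl h ρ) ∘ (gr gf (gf ++ fl h μ) ∘ gr gt (gt ++ fl h ν)),
    emb_comp e3 (emb_comp e1 e2), ?_, ?_, ?_⟩
  · intro π hπ
    have h1 : ¬ gf <+: π := fun hh => hπ ((List.prefix_append _ _).trans hh)
    have h2 : ¬ gt <+: π := fun hh => hπ ((List.prefix_append _ _).trans hh)
    simp only [Function.comp_apply]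
    rw [gr_not h2, gr_not h1, gr_not hπ]
  · intro π
    have h1 : jt h0 h [false] = gf := by simp [jt, hgf]
    simp only [Function.comp_apply]
    rw [h1, gr_not (hf π), gr_app, hgf, jt_eq, fl_app]
    simp only [List.append_assoc]
    rw [gr_app]
    simp only [List.append_assoc]
  · intro π
    have h1 : jt h0 h [true] = gt := by simp [jt, hgt]
    simp only [Function.comp_apply]
    rw [h1, gr_app, List.append_assoc gt, gr_not (ht _), hgt, jt_eq, fl_app]
    simp only [List.append_assoc]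
    rw [gr_app]
    simp only [List.append_assoc]

lemma inc_split : ∀ (μ ν : Nd), Inc μ ν → ∃ ρ x μ' ν', μ = ρ ++ x :: μ' ∧ ν = ρ ++ (!x) :: ν' := by
  intro μ
  induction μ with
  | nil => intro ν h; exact absurd (List.nil_prefix) h.1
  | cons a μ ih =>
    intro ν h
    cases ν with
    | nil => exact absurd (List.nil_prefix) h.2
    | cons b ν =>
      by_cases hab : a = b
      · subst hab
        obtain ⟨ρ, x, μ', ν', h1, h2⟩ := ih ν ⟨fun hh => h.1 (by simpa using hh),
          fun hh => h.2 (by simpa using hh)⟩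
        exact ⟨a :: ρ, x, μ', ν', by simp [h1], by simp [h2]⟩
      · refine ⟨[], a, μ, ν, rfl, ?_⟩
        have : b = !a := by cases a <;> cases b <;> simp_all
        simp [this]

theorem t_RICHA (h1 : S_EXT) (h2 : S_JT1) (h3 : S_JT2) : S_RICHA.{u} := by
  classical
  intro M Y ι _ c hN hE hI Λ A _ R
  refine ⟨?_, ?_⟩
  · intro F F' hS hG e he
    obtain ⟨N, hN1, hN2⟩ := h1 hS
    obtain ⟨e', he', h⟩ := hN2 id emb_id
    refine good_ind R hI F hN1 he ?_
    obtain ⟨w, hw0, hw⟩ := hG e' he'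
    refine ⟨w, hw0, fun p hp => ?_⟩
    obtain ⟨π, hπ, hπ'⟩ := h p hp
    have := hw _ hπ
    rw [hπ'] at this
    exact this
  · intro C K hk
    by_contra hbad
    have hbad' : ∀ e, Emb e → ¬ Good R c (C.plug (.node [] (K.plug .nil) (K.plug .nil))) e := by
      intro e he hg
      exact hbad (fun e' he' => good_ind R hI _ he he' hg)
    -- the tuples
    let PC : List (Nd × Λ) := (C.plug .nil).pos []
    let PK : List (Nd × Λ) := (K.plug .nil).pos []
    let T : Type := Fin PC.length ⊕ Fin PK.length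
    let lab : T → Λ := Sum.elim (fun k => (PC.get k).2) (fun k => (PK.get k).2)
    let ps : Nd → T → Nd := fun ν => Sum.elim (fun k => (PC.get k).1)
      (fun k => jt C.hp K.hp ν ++ (PK.get k).1)
    let b : Nd → T × ι → M := fun ν x => c (ps ν x.1) x.2
    let R' : (A → M) → (T × ι → M) → Prop := fun w b => Fit R lab w b
    have hR' : Y.D2 R' := fit_D R lab Sum.inl Sum.inr
    -- pairs
    have hpair : ∀ ρ μ ν : Nd, ¬ ∃ w, R' w (b (ρ ++ false :: μ)) ∧ R' w (b (ρ ++ true :: ν)) := by
      rintro ρ μ ν ⟨w, hw1, hw2⟩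
      obtain ⟨e, he, h⟩ := h3 C K ρ μ ν
      apply hbad' e he
      refine ⟨w, hw1.1, fun p hp => ?_⟩
      rcases h p hp with ⟨hpC, hpe⟩ | ⟨p', hp', hl, h' | h'⟩
      · obtain ⟨k, hk⟩ := List.get_of_mem hpC
        have := hw1.2 (Sum.inl k)
        rw [hpe, ← hk]
        exact this
      · obtain ⟨k, hk⟩ := List.get_of_mem hp'
        have := hw1.2 (Sum.inr k)
        rw [h', ← hl, ← hk]
        exact this
      · obtain ⟨k, hk⟩ := List.get_of_mem hp'
        have := hw2.2 (Sum.inr k)
        rw [h', ← hl, ← hk]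
        exact this
    -- the negation
    have hED : Y.D {v : (T × ι) ⊕ (T × ι) → M |
        ∃ w : A → M, R' w (v ∘ Sum.inl) ∧ R' w (v ∘ Sum.inr)} := by
      have := Y.inter
        (fit_D R lab (Sum.inr : A → ((T × ι) ⊕ (T × ι)) ⊕ A) (Sum.inl ∘ Sum.inl))
        (fit_D R lab (Sum.inr : A → ((T × ι) ⊕ (T × ι)) ⊕ A) (Sum.inl ∘ Sum.inr))
      exact Y.proj this
    obtain ⟨S', hS'D, hS'1, hS'2⟩ := hE _ hED (Sum.elim (b [false]) (b [true])) (by
      rintro ⟨w, hw1, hw2⟩
      exact hpair [] [] [] ⟨w, hw1, hw2⟩)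
    have hall : ∀ ρ μ ν : Nd, Sum.elim (b (ρ ++ false :: μ)) (b (ρ ++ true :: ν)) ∈ S' := by
      intro ρ μ ν
      obtain ⟨e, he, he1, he2, he3⟩ := exEmb C.hp K.hp ρ μ ν
      have key := ind' hI (fun x : (T × ι) ⊕ (T × ι) =>
        Sum.elim (fun y : T × ι => (ps [false] y.1, y.2))
          (fun y : T × ι => (ps [true] y.1, y.2)) x) hS'D emb_id he (by
            convert hS'1 using 1
            funext x
            rcases x with x | x <;> rfl)
      convert key using 1
      funext x
      have hC : ∀ k : Fin PC.length, e ((PC.get k).1) = (PC.get k).1 := by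
        intro k
        apply he1
        have := hole_free C [] (PC.get k) (List.get_mem _ _)
        simpa using this
      rcases x with ⟨t, i⟩ | ⟨t, i⟩
      · rcases t with k | k
        · show c ((PC.get k).1) i = c (e ((PC.get k).1)) i
          rw [hC]
        · show c (jt C.hp K.hp (ρ ++ false :: μ) ++ (PK.get k).1) i =
            c (e (jt C.hp K.hp [false] ++ (PK.get k).1)) i
          rw [he2]
      · rcases t with k | k
        · show c ((PC.get k).1) i = c (e ((PC.get k).1)) i
          rw [hC]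
        · show c (jt C.hp K.hp (ρ ++ true :: ν) ++ (PK.get k).1) i =
            c (e (jt C.hp K.hp [true] ++ (PK.get k).1)) i
          rw [he3]
    let P : (T × ι → M) → (T × ι → M) → Prop := fun b b' =>
      Sum.elim b b' ∈ S' ∨ Sum.elim b' b ∈ S'
    have hP : Y.D2 P := by
      have h5 := Y.union hS'D (Y.pull (Sum.swap : (T × ι) ⊕ (T × ι) → _) hS'D)
      have h6 : {v : (T × ι) ⊕ (T × ι) → M | P (v ∘ Sum.inl) (v ∘ Sum.inr)} =
          S' ∪ {v | (v ∘ (Sum.swap : (T × ι) ⊕ (T × ι) → _)) ∈ S'} := by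
        ext v
        have e1 : Sum.elim (v ∘ Sum.inl) (v ∘ Sum.inr) = v := by
          funext x; rcases x with x | x <;> rfl
        have e2 : Sum.elim (v ∘ Sum.inr) (v ∘ Sum.inl) = v ∘ Sum.swap := by
          funext x; rcases x with x | x <;> rfl
        simp only [P, Set.mem_setOf_eq, Set.mem_union, e1, e2]
      show Y.D _
      rw [h6]
      exact h5
    refine hN A (T × ι) R' P hR' hP ⟨?_, b, ?_, ?_⟩
    · rintro b1 b2 (hb | hb) ⟨w, hw1, hw2⟩
      · exact hS'2 (Sum.elim b1 b2) ⟨w, hw1, hw2⟩ hb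
      · exact hS'2 (Sum.elim b2 b1) ⟨w, hw2, hw1⟩ hb
    · intro σ
      obtain ⟨e, he, h⟩ := h2 C K σ
      obtain ⟨w, hw0, hw⟩ := hk (σ.length + 1) e he
      refine ⟨w, fun τ hτ => ⟨hw0, fun t => ?_⟩⟩
      rcases t with k | k
      · obtain ⟨π, hπ, hπ'⟩ := h (PC.get k) (Or.inl ⟨_, List.get_mem _ _, rfl⟩)
        have := hw _ hπ
        rw [hπ'] at this
        exact this
      · obtain ⟨π, hπ, hπ'⟩ := h (jt C.hp K.hp τ ++ (PK.get k).1, (PK.get k).2)
          (Or.inr ⟨τ, hτ, _, List.get_mem _ _, rfl⟩)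
        have := hw _ hπ
        rw [hπ'] at this
        exact this
    · intro μ ν hμν
      obtain ⟨ρ, x, μ', ν', rfl, rfl⟩ := inc_split μ ν hμν
      cases x
      · exact Or.inl (hall ρ μ' ν')
      · exact Or.inr (hall ρ ν' μ')

end Pool.Agent.K1H21.PL
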